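import Mathlib
import Pool.Agent.H26.AnnC

open Filter Topology Metric MeasureTheory
open Pool.Agent.H26.Ann

namespace Pool.Agent.Results.MP_fdf3ca_an.Bergman

noncomputable def bergInt (p α : ℝ) (f : Metric.ball (0 : ℂ) 1 → ℂ) : ENNReal :=
  ∫⁻ z : Metric.ball (0 : ℂ) 1,
    ENNReal.ofReal (‖f z‖ ^ p * (1 - ‖(z : ℂ)‖) ^ α / Real.pi)
      ∂((volume : Measure ℂ).comap Subtype.val)

def bergman (p α : ℝ) : Set (Metric.ball (0 : ℂ) 1 → ℂ) :=
  {f | (∃ g : ℂ → ℂ, DifferentiableOn ℂ g (Metric.ball 0 1) ∧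
      ∀ z : Metric.ball (0 : ℂ) 1, g z = f z) ∧ bergInt p α f < ⊤}

noncomputable def bergNorm (p α : ℝ) (f : Metric.ball (0 : ℂ) 1 → ℂ) : ℝ :=
  (bergInt p α f).toReal ^ (min 1 (1 / p))

lemma bergInt_eq (p α : ℝ) (f : ball (0 : ℂ) 1 → ℂ) : bergInt p α f = II p α (ext f) := by
  unfold bergInt II
  rw [← lintegral_subtype_comap measurableSet_ball]
  simp only [ext_coe]

def MM (Q : ℕ) {p : ℝ} (hp : 0 < p) (α : ℝ) : Submodule ℂ (ball (0 : ℂ) 1 → ℂ) where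
  carrier := {f | P Q (ext f) ∧ II p α (ext f) < ⊤}
  add_mem' := fun {f g} hf hg => by
    have e : ∀ z ∈ ball (0 : ℂ) 1, ext f z + ext g z = ext (f + g) z := fun z hz => by
      simp [ext_mem _ hz]
    exact ⟨(P.add hf.1 hg.1).congr e, II_congr e ▸ II_add hp hf.1.diff hf.2 hg.2⟩
  zero_mem' := by
    have e : ∀ z ∈ ball (0 : ℂ) 1, (0 : ℂ) = ext 0 z := fun z hz => by simp [ext_mem _ hz]
    refine ⟨(P.zero Q).congr e, ?_⟩
    rw [← II_congr e]
    simp [II, hp.ne']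
  smul_mem' := fun c f hf => by
    have e : ∀ z ∈ ball (0 : ℂ) 1, c * ext f z = ext (c • f) z := fun z hz => by
      simp [ext_mem _ hz]
    exact ⟨(P.smul hf.1 c).congr e, II_congr e ▸ II_smul c hf.2⟩

theorem result (p α : ℝ) (hp : 0 < p) (hα : -1 < α) :
    ∃ M : Submodule ℂ (Metric.ball (0 : ℂ) 1 → ℂ),
      (M : Set (Metric.ball (0 : ℂ) 1 → ℂ)) ⊆ bergman p α ∧
      (∀ f ∈ bergman p α, (∀ ε : ℝ, 0 < ε → ∃ g ∈ M, bergNorm p α (f - g) < ε) → f ∈ M) ∧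
      ¬ FiniteDimensional ℂ M ∧
      ∀ f ∈ M, f ≠ 0 → ∀ K ρ : ℝ, ρ < 1 → ∃ r : ℝ, ρ < r ∧ r < 1 ∧
        ∀ z : Metric.ball (0 : ℂ) 1, ‖(z : ℂ)‖ = r → K ≤ ‖f z‖ := by
  set β := min 1 ((α + 1) / (2 * p)) with hβd
  have hβ0 : 0 < β := lt_min one_pos (div_pos (by linarith) (by linarith))
  have hβ1 : β ≤ 1 := min_le_left _ _
  have hβ2 : -1 < α - β * p := by
    have : β ≤ (α + 1) / (2 * p) := min_le_right _ _
    rw [le_div_iff₀ (by linarith)] at this
    linarith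
  obtain ⟨Q, hQ, hβ⟩ := exists_Q hβ0
  refine ⟨MM Q hp α, ?_, ?_, ?_, ?_⟩
  · exact fun f hf => ⟨⟨ext f, P.diff hf.1, ext_coe f⟩, by rw [bergInt_eq]; exact hf.2⟩
  · rintro f ⟨⟨g, hg, hgf⟩, hf⟩ h
    rw [bergInt_eq] at hf
    refine ⟨?_, hf⟩
    have hfd : DifferentiableOn ℂ (ext f) (ball 0 1) :=
      hg.congr fun z hz => by rw [ext_mem _ hz, ← hgf]
    have hm : 0 < min 1 (1 / p) := lt_min one_pos (one_div_pos.2 hp)
    choose G hG hG' using fun i : ℕ => h ((1 / ((i : ℝ) + 1)) ^ (min 1 (1 / p)))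
      (Real.rpow_pos_of_pos Nat.one_div_pos_of_nat _)
    refine P.closed (F := atTop) (G := fun i => ext (G i)) (Eventually.of_forall fun i => (hG i).1)
      (lu_of_II hp (α := α) (fun i => (hG i).1.diff) hfd ?_)
    have e : ∀ i, ∀ z ∈ ball (0 : ℂ) 1, ext f z - ext (G i) z = ext (f - G i) z := fun i z hz => by
      simp [ext_mem _ hz]
    have hfin : ∀ i, II p α (fun z => ext f z - ext (G i) z) ≠ ⊤ := fun i => by
      have := II_add hp hfd hf (II_smul (-1) (hG i).2)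
      simp only [neg_mul, one_mul, ← sub_eq_add_neg] at this
      exact this.ne
    rw [← ENNReal.tendsto_toReal_zero_iff hfin]
    refine squeeze_zero (fun i => ENNReal.toReal_nonneg) (fun i => ?_)
      tendsto_one_div_add_atTop_nhds_zero_nat
    have h1 := hG' i
    rw [bergNorm, bergInt_eq, ← II_congr (e i)] at h1
    exact ((Real.rpow_lt_rpow_iff ENNReal.toReal_nonneg Nat.one_div_pos_of_nat.le hm).1 h1).le
  · intro hfin
    have hP := fk_P hQ hβ0.le hβ1 hβ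
    have e : ∀ k, ∀ z ∈ ball (0 : ℂ) 1, fk Q k z = ext (fun w => fk Q k w) z := fun k z hz => by
      simp [ext_mem _ hz]
    let v : ℕ → MM Q hp α := fun k =>
      ⟨fun z => fk Q k z, (hP k).congr (e k),
        II_congr (e k) ▸ II_fin hp hβ2 (fk_spec hQ hβ0.le hβ1 hβ k).2⟩
    have hli : LinearIndependent ℂ v := by
      rw [linearIndependent_iff']
      intro s l hs k hk
      refine fk_indep hQ hβ0.le hβ1 hβ s l (fun z hz => ?_) k hk
      have := congrArg (fun f : MM Q hp α => (f : ball (0 : ℂ) 1 → ℂ) ⟨z, hz⟩) hs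
      simpa [v] using this
    exact not_finite_iff_infinite.2 inferInstance hli.finite
  · intro f hf hne K ρ hρ
    have h1 : ∃ z ∈ ball (0 : ℂ) 1, ext f z ≠ 0 := by
      by_contra hc
      push Not at hc
      exact hne (funext fun z => by simpa [ext_coe] using hc z z.2)
    obtain ⟨r, h2, h3, h4⟩ := P.sa hQ hf.1 h1 K ρ hρ
    exact ⟨r, h2, h3, fun z hz => by simpa [ext_coe] using h4 z hz⟩

end Pool.Agent.Results.MP_fdf3ca_an.Bergman
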