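import Mathlib
import Pool.Agent.H26.AnnC

open Filter Topology Metric
open Pool.Agent.H26.Ann

namespace Pool.Agent.Results.MP_fdf3ca_an.Spaceable

def MM (Q : ℕ) : Submodule ℂ C(ball (0 : ℂ) 1, ℂ) where
  carrier := {f | P Q (ext f)}
  add_mem' := fun {f g} hf hg => (P.add hf hg).congr fun z hz => by
    simp [ext_mem _ hz]
  zero_mem' := (P.zero Q).congr fun z hz => by simp [ext_mem _ hz]
  smul_mem' := fun c f hf => (P.smul hf c).congr fun z hz => by simp [ext_mem _ hz]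

theorem result : ∃ M : Submodule ℂ C(Metric.ball (0 : ℂ) 1, ℂ),
    IsClosed (M : Set C(Metric.ball (0 : ℂ) 1, ℂ)) ∧ ¬ FiniteDimensional ℂ M ∧
    (∀ f ∈ M, ∃ g : ℂ → ℂ, DifferentiableOn ℂ g (Metric.ball 0 1) ∧
      ∀ z : Metric.ball (0 : ℂ) 1, g z = f z) ∧
    ∀ f ∈ M, f ≠ 0 → ∀ K ρ : ℝ, ρ < 1 → ∃ r : ℝ, ρ < r ∧ r < 1 ∧
      ∀ z : Metric.ball (0 : ℂ) 1, ‖(z : ℂ)‖ = r → K ≤ ‖f z‖ := by
  obtain ⟨Q, hQ, hβ⟩ := exists_Q one_pos
  refine ⟨MM Q, ?_, ?_, ?_, ?_⟩
  · refine isClosed_iff_forall_filter.2 fun f F hF h1 h2 => ?_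
    refine P.closed (F := F) (G := fun g : C(ball (0 : ℂ) 1, ℂ) => ext g)
      (le_principal_iff.1 h1) ?_
    rw [tendstoLocallyUniformlyOn_iff_tendstoLocallyUniformly_comp_coe]
    have : LocallyCompactSpace (ball (0 : ℂ) 1) := isOpen_ball.locallyCompactSpace
    have := ContinuousMap.tendsto_iff_tendstoLocallyUniformly.1 (tendsto_id'.2 h2)
    simpa only [Function.comp_def, ext_coe, id] using this
  · intro hfin
    have hP := fk_P hQ zero_le_one le_rfl hβ
    let v : ℕ → MM Q := fun k =>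
      ⟨⟨fun z => fk Q k z, (hP k).diff.continuousOn.domRestrict⟩,
        (hP k).congr fun z hz => by simp [ext_mem _ hz]⟩
    have hli : LinearIndependent ℂ v := by
      refine LinearIndependent.of_comp (MM Q).subtype ?_
      refine (linearIndependent_iff' (R := ℂ) (M := C(ball (0 : ℂ) 1, ℂ))).2
        fun s l hs k hk => ?_
      refine fk_indep hQ zero_le_one le_rfl hβ s l (fun z hz => ?_) k hk
      have := congrArg (fun f : C(ball (0 : ℂ) 1, ℂ) => f ⟨z, hz⟩) hs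
      simpa [v] using this
    exact not_finite_iff_infinite.2 inferInstance hli.finite
  · exact fun f hf => ⟨ext f, P.diff hf, ext_coe f⟩
  · intro f hf hne K ρ hρ
    have h1 : ∃ z ∈ ball (0 : ℂ) 1, ext f z ≠ 0 := by
      by_contra hc
      push Not at hc
      exact hne (ContinuousMap.ext fun z => by simpa [ext_coe] using hc z z.2)
    obtain ⟨r, h2, h3, h4⟩ := P.sa hQ hf h1 K ρ hρ
    exact ⟨r, h2, h3, fun z hz => by simpa [ext_coe] using h4 z hz⟩

end Pool.Agent.Results.MP_fdf3ca_an.Spaceable
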